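import Pool.Agent.helper64.OT.SpecF

/-! Row ENI of project OT (MP_f6e9a2_nt) -/

set_option autoImplicit false

namespace Pool.Agent.OT

open Finset

theorem ENI : ENI_stmt := by
  classical
  intro p _ N Y z
  have hinj : Function.Injective (fun y : ZMod p => z - y) := by
    intro a b h
    have h' : z - a = z - b := h
    exact sub_right_injective h'
  refine ⟨?_, Finset.card_image_of_injective Y hinj⟩
  unfold EN
  have hmem : ∀ u : ZMod p, u ∈ Y.image (fun y => z - y) ↔ z - u ∈ Y := by
    intro u
    rw [Finset.mem_image]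
    constructor
    · rintro ⟨y, hy, rfl⟩
      rw [sub_sub_cancel]
      exact hy
    · intro h
      exact ⟨z - u, h, sub_sub_cancel z u⟩
  have hneg : ∀ a b : ZMod p, ((z - a) - (z - b)).valMinAbs.natAbs = (a - b).valMinAbs.natAbs := by
    intro a b
    have e : (z - a) - (z - b) = -(a - b) := by ring
    rw [e, ZMod.natAbs_valMinAbs_neg]
  refine Finset.card_nbij' (fun w => ((z - w.1.1, z - w.1.2), (z - w.2.1, z - w.2.2)))
    (fun w => ((z - w.1.1, z - w.1.2), (z - w.2.1, z - w.2.2))) ?_ ?_ ?_ ?_
  · intro w hw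
    rw [Finset.mem_coe, Finset.mem_filter, Finset.mem_product, Finset.mem_product, Finset.mem_product, hmem, hmem, hmem, hmem] at hw
    rw [Finset.mem_coe, Finset.mem_filter, Finset.mem_product, Finset.mem_product, Finset.mem_product]
    refine ⟨hw.1, ?_, ?_⟩
    · have h1 := hw.2.1
      show (z - w.1.1) - (z - w.1.2) = (z - w.2.1) - (z - w.2.2)
      linear_combination -h1
    · show ((z - w.1.1) - (z - w.2.1)).valMinAbs.natAbs < N
      rw [hneg]
      exact hw.2.2
  · intro w hw
    rw [Finset.mem_coe, Finset.mem_filter, Finset.mem_product, Finset.mem_product, Finset.mem_product] at hw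
    rw [Finset.mem_coe, Finset.mem_filter, Finset.mem_product, Finset.mem_product, Finset.mem_product, hmem, hmem, hmem, hmem]
    refine ⟨⟨⟨?_, ?_⟩, ⟨?_, ?_⟩⟩, ?_, ?_⟩
    · show z - (z - w.1.1) ∈ Y
      rw [sub_sub_cancel]
      exact hw.1.1.1
    · show z - (z - w.1.2) ∈ Y
      rw [sub_sub_cancel]
      exact hw.1.1.2
    · show z - (z - w.2.1) ∈ Y
      rw [sub_sub_cancel]
      exact hw.1.2.1
    · show z - (z - w.2.2) ∈ Y
      rw [sub_sub_cancel]
      exact hw.1.2.2
    · have h1 := hw.2.1
      show (z - w.1.1) - (z - w.1.2) = (z - w.2.1) - (z - w.2.2)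
      linear_combination -h1
    · show ((z - w.1.1) - (z - w.2.1)).valMinAbs.natAbs < N
      rw [hneg]
      exact hw.2.2
  · intro w _
    show ((z - (z - w.1.1), z - (z - w.1.2)), (z - (z - w.2.1), z - (z - w.2.2))) = w
    simp only [sub_sub_cancel]
  · intro w _
    show ((z - (z - w.1.1), z - (z - w.1.2)), (z - (z - w.2.1), z - (z - w.2.2))) = w
    simp only [sub_sub_cancel]

end Pool.Agent.OT
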