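import Pool.Agent.helper64.OT.SpecF

/-! Row ENL of project OT (MP_f6e9a2_nt) -/

set_option autoImplicit false

namespace Pool.Agent.OT

open Finset

/-- the cells which meet the arc -/
def ENL_T (p N a : ℕ) : Finset ℕ :=
  if a < N then {0, 1, (p - 1) / N - 1, (p - 1) / N} else {0, a / N - 1, a / N, a / N + 1}

private theorem ENL_T_card (p N a : ℕ) : (ENL_T p N a).card ≤ 4 := by
  unfold ENL_T
  split_ifs
  · exact Finset.card_le_four
  · exact Finset.card_le_four

private theorem ENL_div {N x k : ℕ} (hN : 0 < N) (h1 : k * N ≤ x) (h2 : x < (k + 1) * N) : x / N = k := by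
  apply le_antisymm
  · exact Nat.lt_succ_iff.1 ((Nat.div_lt_iff_lt_mul hN).2 h2)
  · exact (Nat.le_div_iff_mul_le hN).2 h1

private theorem ENL_num (p N a b : ℕ) (v k : ℤ) (hN : 0 < N) (hNp : N ≤ p) (ha : a < p) (hb : b < p) (hv : v.natAbs < N)
    (h : (b : ℤ) = a - v + k * p) : b / N ∈ ENL_T p N a := by
  have hp : (0 : ℤ) < p := by omega
  have hv1 : v < N := by omega
  have hv2 : -(N : ℤ) < v := by omega
  have hk1 : k < 2 := by
    by_contra hc
    have : (2 : ℤ) * p ≤ k * p := mul_le_mul_of_nonneg_right (by omega) hp.le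
    omega
  have hk2 : -2 < k := by
    by_contra hc
    have : k * p ≤ (-2 : ℤ) * p := mul_le_mul_of_nonneg_right (by omega) hp.le
    omega
  have hk : k = -1 ∨ k = 0 ∨ k = 1 := by omega
  unfold ENL_T
  rcases hk with rfl | rfl | rfl
  · -- below
    have hb' : b < N := by omega
    have h0 : b / N = 0 := Nat.div_eq_of_lt hb'
    rw [h0]
    split_ifs <;> simp
  · have hab : (b : ℤ) = a - v := by rw [h]; ring
    have hr := Nat.div_add_mod a N
    have hm := Nat.mod_lt a hN
    by_cases haN : a < N
    · rw [if_pos haN]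
      have hb2 : b < 2 * N := by omega
      have h1 : b / N ≤ 1 := by
        have : b / N < 2 := (Nat.div_lt_iff_lt_mul hN).2 hb2
        omega
      have h2 : b / N = 0 ∨ b / N = 1 := Nat.le_one_iff_eq_zero_or_eq_one.1 h1
      rcases h2 with h2 | h2 <;> rw [h2] <;> simp
    · rw [if_neg haN]
      have hup : b / N ≤ a / N + 1 := by
        have h3 : b < (a / N + 2) * N := by
          have e : (a / N + 2) * N = N * (a / N) + 2 * N := by ring
          rw [e]
          omega
        have : b / N < a / N + 2 := (Nat.div_lt_iff_lt_mul hN).2 h3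
        omega
      have hlow : a / N - 1 ≤ b / N := by
        apply (Nat.le_div_iff_mul_le hN).2
        have e : (a / N - 1) * N = N * (a / N) - N := by
          rw [Nat.sub_mul, one_mul, mul_comm]
        rw [e]
        omega
      have h2 : b / N = a / N - 1 ∨ b / N = a / N ∨ b / N = a / N + 1 := by omega
      rcases h2 with h2 | h2 | h2 <;> rw [h2] <;> simp
  · -- above
    have haN : a < N := by omega
    rw [if_pos haN]
    have hup : b / N ≤ (p - 1) / N := Nat.div_le_div_right (by omega)
    have hlow : (p - 1) / N - 1 ≤ b / N := by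
      apply (Nat.le_div_iff_mul_le hN).2
      have e : ((p - 1) / N - 1) * N = N * ((p - 1) / N) - N := by
        rw [Nat.sub_mul, one_mul, mul_comm]
      have := Nat.mul_div_le (p - 1) N
      rw [e]
      omega
    have h2 : b / N = (p - 1) / N - 1 ∨ b / N = (p - 1) / N := by omega
    rcases h2 with h2 | h2 <;> rw [h2] <;> simp

theorem ENL : ENL_stmt := by
  classical
  intro p _ N m B hN hNp hm
  have hcell : ∀ j : ℕ, (cell N B j).card ≤ m := by
    intro j
    by_cases hj : j ∈ cells N B
    · exact hm j hj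
    · have : cell N B j = ∅ := by
        unfold cell
        rw [Finset.filter_eq_empty_iff]
        intro b hb h
        apply hj
        unfold cells
        exact Finset.mem_image.2 ⟨b, hb, h⟩
      rw [this, Finset.card_empty]
      exact Nat.zero_le _
  have hone : ∀ b₁ : ZMod p, (B.filter fun b₃ => (b₁ - b₃).valMinAbs.natAbs < N).card ≤ 4 * m := by
    intro b₁
    have hsub : (B.filter fun b₃ => (b₁ - b₃).valMinAbs.natAbs < N) ⊆ (ENL_T p N b₁.val).biUnion fun j => cell N B j := by
      intro b hb
      rw [Finset.mem_filter] at hb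
      rw [Finset.mem_biUnion]
      refine ⟨b.val / N, ?_, ?_⟩
      · have e1 : (((b.val : ℤ) - (b₁.val - (b₁ - b).valMinAbs) : ℤ) : ZMod p) = 0 := by
          push_cast
          rw [ZMod.natCast_zmod_val, ZMod.natCast_zmod_val]
          ring
        rw [ZMod.intCast_zmod_eq_zero_iff_dvd] at e1
        obtain ⟨k, hk⟩ := e1
        refine ENL_num p N b₁.val b.val (b₁ - b).valMinAbs k hN hNp (ZMod.val_lt b₁) (ZMod.val_lt b) hb.2 ?_
        linarith
      · unfold cell
        exact Finset.mem_filter.2 ⟨hb.1, rfl⟩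
    calc (B.filter fun b₃ => (b₁ - b₃).valMinAbs.natAbs < N).card
        ≤ ((ENL_T p N b₁.val).biUnion fun j => cell N B j).card := Finset.card_le_card hsub
      _ ≤ ∑ j ∈ ENL_T p N b₁.val, (cell N B j).card := Finset.card_biUnion_le
      _ ≤ ∑ _j ∈ ENL_T p N b₁.val, m := Finset.sum_le_sum fun j _ => hcell j
      _ = (ENL_T p N b₁.val).card * m := by rw [Finset.sum_const, smul_eq_mul]
      _ ≤ 4 * m := Nat.mul_le_mul_right m (ENL_T_card p N b₁.val)
  unfold EN
  calc _ ≤ (((B ×ˢ B) ×ˢ B).filter fun w => (w.1.1 - w.2).valMinAbs.natAbs < N).card := by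
        refine Finset.card_le_card_of_injOn (fun z => (z.1, z.2.1)) ?_ ?_
        · intro z hz
          rw [Finset.mem_coe, Finset.mem_filter, Finset.mem_product, Finset.mem_product, Finset.mem_product] at hz
          rw [Finset.mem_coe, Finset.mem_filter, Finset.mem_product, Finset.mem_product]
          exact ⟨⟨hz.1.1, hz.1.2.1⟩, hz.2.2⟩
        · intro z hz z' hz' h
          rw [Finset.mem_coe, Finset.mem_filter] at hz hz'
          have h1 : z.1 = z'.1 := (Prod.ext_iff.1 h).1
          have h2 : z.2.1 = z'.2.1 := (Prod.ext_iff.1 h).2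
          have e1 := hz.2.1
          have e2 := hz'.2.1
          rw [h1, h2] at e1
          have h3 : z.2.2 = z'.2.2 := by linear_combination e1 - e2
          exact Prod.ext h1 (Prod.ext h2 h3)
    _ = ∑ w ∈ B ×ˢ B, (B.filter fun b₃ => (w.1 - b₃).valMinAbs.natAbs < N).card := by
        simp only [Finset.card_filter]
        rw [Finset.sum_product]
    _ ≤ ∑ _w ∈ B ×ˢ B, 4 * m := Finset.sum_le_sum fun w _ => hone w.1
    _ = 4 * m * B.card ^ 2 := by
        rw [Finset.sum_const, smul_eq_mul, Finset.card_product]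
        ring

end Pool.Agent.OT
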